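import Pool.Agent.AEC.StmtsB

/-!
# Row PRS of the squad AEC: presentation systems
-/

open FirstOrder FirstOrder.Language Cardinal Set

universe u

namespace Pool.Agent.AEC.H24

/-- One step of the recursion. -/
theorem step {L : FirstOrder.Language.{u, u}} {κ : Cardinal.{u}} (K : AEC L κ)
    (A : K.Mod) (x₀ : A.α) (s : Finset A.α)
    (ih : ∀ t, t ⊂ s → {S : L.Substructure A.α // K.emb S.subtype ∧ #S ≤ κ ∧ x₀ ∈ S ∧
      (t : Set A.α) ⊆ S}) :
    ∃ S : {S : L.Substructure A.α // K.emb S.subtype ∧ #S ≤ κ ∧ x₀ ∈ S ∧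
      (s : Set A.α) ⊆ S}, ∀ t (h : t ⊂ s), (ih t h).1 ≤ S.1 := by
  classical
  let B : Set A.α := ({x₀} ∪ (s : Set A.α)) ∪
    ⋃ t : {t : Finset A.α // t ⊂ s}, ((ih t.1 t.2).1 : Set A.α)
  have hκκ : κ + κ = κ := Cardinal.add_eq_self K.aleph0_le
  have h1 : #({x₀} : Set A.α) ≤ κ := by
    rw [Cardinal.mk_singleton]
    exact Cardinal.one_le_aleph0.trans K.aleph0_le
  have h2 : #(s : Set A.α) ≤ κ := by
    have : #(s : Set A.α) < ℵ₀ := Cardinal.lt_aleph0_of_finite _
    exact this.le.trans K.aleph0_le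
  have h3 : #(⋃ t : {t : Finset A.α // t ⊂ s}, ((ih t.1 t.2).1 : Set A.α) : Set A.α) ≤ κ := by
    refine (Cardinal.mk_iUnion_le_sum_mk).trans ?_
    refine (Cardinal.sum_le_sum _ (fun _ => κ)
      (fun t : {t : Finset A.α // t ⊂ s} => (ih t.1 t.2).2.2.1)).trans ?_
    rw [Cardinal.sum_const']
    have hfin : Finite {t : Finset A.α // t ⊂ s} := by
      have : (Set.Finite {t : Finset A.α | t ⊂ s}) := by
        refine Set.Finite.subset (s.powerset.finite_toSet) ?_
        intro t ht
        exact Finset.mem_coe.2 (Finset.mem_powerset.2 (Finset.ssubset_iff_subset_ne.1 ht).1)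
      exact this.to_subtype
    have h4 : #{t : Finset A.α // t ⊂ s} ≤ κ :=
      (Cardinal.lt_aleph0_of_finite _).le.trans K.aleph0_le
    calc #{t : Finset A.α // t ⊂ s} * κ ≤ κ * κ := by gcongr
      _ = κ := Cardinal.mul_eq_self K.aleph0_le
  have hB : #B ≤ κ := by
    calc #B ≤ #(({x₀} ∪ (s : Set A.α) : Set A.α)) +
          #(⋃ t : {t : Finset A.α // t ⊂ s}, ((ih t.1 t.2).1 : Set A.α) : Set A.α) :=
          Cardinal.mk_union_le _ _
      _ ≤ (#({x₀} : Set A.α) + #(s : Set A.α)) + κ := by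
          gcongr
          exact Cardinal.mk_union_le _ _
      _ ≤ (κ + κ) + κ := by gcongr
      _ = κ := by rw [hκκ, hκκ]
  obtain ⟨S, hS1, hS2, hS3⟩ := K.ls A.prop B
  refine ⟨⟨S, hS2, ?_, ?_, ?_⟩, ?_⟩
  · calc #S ≤ #B + κ := hS3
      _ ≤ κ + κ := by gcongr
      _ = κ := hκκ
  · exact hS1 (Or.inl (Or.inl rfl))
  · intro x hx
    exact hS1 (Or.inl (Or.inr hx))
  · intro t h x hx
    exact hS1 (Or.inr (Set.mem_iUnion.2 ⟨⟨t, h⟩, hx⟩))

/-- **PRS**: presentation systems exist. -/
theorem prs : PrsStmt.{u} := by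
  intro L κ K A hA
  classical
  obtain ⟨x₀⟩ := hA
  let G : Finset A.α → Type u := fun s => {S : L.Substructure A.α // K.emb S.subtype ∧ #S ≤ κ ∧
    x₀ ∈ S ∧ (s : Set A.α) ⊆ S}
  let H : ∀ s : Finset A.α, (∀ t, t ⊂ s → G t) → G s :=
    fun s ih => Classical.choose (step K A x₀ s ih)
  have hH : ∀ (s : Finset A.α) (ih : ∀ t, t ⊂ s → G t) (t : Finset A.α) (h : t ⊂ s),
      (ih t h).1 ≤ (H s ih).1 := fun s ih => Classical.choose_spec (step K A x₀ s ih)
  let S : ∀ s : Finset A.α, G s := fun s => Finset.strongInduction H s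
  have hS : ∀ s, S s = H s (fun t _ => S t) := fun s => Finset.strongInduction_eq H s
  have hmono : ∀ s t : Finset A.α, s ⊂ t → (S s).1 ≤ (S t).1 := by
    intro s t h
    have := hH t (fun t _ => S t) s h
    rw [← hS t] at this
    exact this
  have hf : ∀ s : Finset A.α, ∃ f : κ.out → A.α, Set.range f = ((S s).1 : Set A.α) ∧
      ∀ x, s = {x} → f K.o = x := by
    intro s
    have hc : #((S s).1) ≤ #(κ.out) := by
      rw [Cardinal.mk_out]
      exact (S s).2.2.1
    obtain ⟨e⟩ := hc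
    haveI : Nonempty ((S s).1) := ⟨⟨x₀, (S s).2.2.2.1⟩⟩
    have hsur : Function.Surjective (Function.invFun e) := Function.invFun_surjective e.injective
    have key : ∀ π : Equiv.Perm κ.out,
        Set.range (fun i => ((Function.invFun e (π i) : (S s).1) : A.α)) =
          ((S s).1 : Set A.α) := by
      intro π
      ext y
      constructor
      · rintro ⟨i, rfl⟩
        exact (Function.invFun e (π i)).2
      · intro hy
        obtain ⟨j, hj⟩ := hsur ⟨y, hy⟩
        refine ⟨π.symm j, ?_⟩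
        simp [hj]
    by_cases hx : ∃ x, s = {x}
    · obtain ⟨x, hx⟩ := hx
      have hxS : x ∈ (S s).1 := by
        have : (s : Set A.α) ⊆ ((S s).1 : Set A.α) := (S s).2.2.2.2
        apply this
        rw [hx]
        simp
      obtain ⟨j, hj⟩ := hsur ⟨x, hxS⟩
      refine ⟨fun i => ((Function.invFun e (Equiv.swap K.o j i) : (S s).1) : A.α),
        key _, ?_⟩
      intro x' hx'
      have hxx : x' = x := by
        rw [hx] at hx'
        exact (Finset.singleton_injective hx').symm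
      subst hxx
      simp [Equiv.swap_apply_left, hj]
    · refine ⟨fun i => ((Function.invFun e ((Equiv.refl _) i) : (S s).1) : A.α),
        key _, ?_⟩
      intro x' hx'
      exact absurd ⟨x', hx'⟩ hx
  choose f hf1 hf2 using hf
  exact ⟨{
    S := fun s => (S s).1
    emb := fun s => (S s).2.1
    mono := by
      intro s t h
      rcases eq_or_ne s t with rfl | hne
      · exact le_rfl
      · exact hmono s t (Finset.ssubset_iff_subset_ne.2 ⟨h, hne⟩)
    sub := fun s => (S s).2.2.2.2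
    f := f
    range := hf1
    sing := fun x => hf2 {x} x rfl }⟩

end Pool.Agent.AEC.H24
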