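import Pool.Agent.AEC.StmtsS

/-!
# Row S_GOD of the squad AEC: new elements are good
-/

set_option autoImplicit false

open FirstOrder FirstOrder.Language Cardinal Set

universe u

namespace Pool.Agent.AEC.S.H24

open Pool.Agent.AEC Pool.Agent.AEC.S

variable {L : FirstOrder.Language.{u, u}} {κ : Cardinal.{u}}

theorem tag_none {τ : Tpl L κ} {T : Type u} {x : W τ T} (h : x.tag = none) :
    ∃ s : {x : τ.P // x ∉ τ.A}, x = W.lo s ∧ x.pr = s.1 := by
  rcases x with x | x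
  · exact ⟨x, rfl, rfl⟩
  · exact absurd h (by simp [W.tag])

theorem tag_some {τ : Tpl L κ} {T : Type u} {x : W τ T} {t : T} (h : x.tag = some t) :
    ∃ a : τ.A, x = W.hi t a := by
  rcases x with x | x
  · exact absurd h (by simp [W.tag])
  · rcases x with ⟨t', a⟩
    have h1 : t' = t := by simpa [W.tag] using h
    subst h1
    exact ⟨a, rfl⟩

/-- the size of the index set -/
theorem index_card {K : AEC L κ} {τ : Tpl L κ} {T : Type u} {l : Cardinal.{u}} (hκ : κ < l)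
    (hW : κ < #T → #(W τ T) = #T) (h : #(W τ T) = l) : #T = l := by
  by_cases hT : κ < #T
  · rw [← hW hT, h]
  · exfalso
    rw [not_lt] at hT
    have h1 : #(W τ T) ≤ κ := by
      change #({x : τ.P // x ∉ τ.A} ⊕ (T × τ.A)) ≤ κ
      rw [← Cardinal.add_def, ← Cardinal.mul_def]
      have h2 : #{x : τ.P // x ∉ τ.A} ≤ κ := (Cardinal.mk_subtype_le _).trans τ.card
      have h3 : #τ.A ≤ κ := (Cardinal.mk_subtype_le _).trans τ.card
      calc #{x : τ.P // x ∉ τ.A} + #T * #τ.A ≤ κ + κ * κ := by gcongr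
        _ = κ := by rw [Cardinal.mul_eq_self K.aleph0_le, Cardinal.add_eq_self K.aleph0_le]
    rw [h] at h1
    exact absurd hκ (not_lt.2 h1)

/-- **S_GOD**. -/
theorem s_god (hxvc : XvcStmt.{u}) (hfrz : FrzStmt.{u}) (hsvc : SvcStmt.{u})
    (hxvw : XvwStmt.{u}) (hwgr : WgrStmt.{u}) (haut : AutStmt.{u}) (htyp : TypStmt.{u}) :
    GodStmt.{u} := by
  classical
  intro L _ κ K τ l hHL M N f T φ hM hN y hy
  obtain ⟨hOK, hl, hcat⟩ := hHL
  have hκl : κ < l := Order.succ_le_iff.1 hl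
  obtain ⟨ht1, ht2⟩ := htyp L κ K τ hOK
  have hTl : #T = l := by
    refine index_card (K := K) hκl (ht1 T) ?_
    rw [← hM]
    exact Cardinal.mk_congr φ.toEquiv
  have hκT : κ < #T := by rw [hTl]; exact hκl
  obtain ⟨ψ⟩ := ht2 l hκl hcat N T hN hTl
  obtain ⟨g1, g2, _⟩ := hwgr L κ τ T K.aleph0_le hκT
  obtain ⟨x1, x2, x3⟩ := hxvw L κ τ T K.aleph0_le hκT
  have aφ := haut L κ (W τ T) M.α φ
  have aψ := haut L κ (W τ T) N.α ψ
  have hS := hsvc L κ K τ l ⟨hOK, hl, hcat⟩ M N f hM hN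
  have hX := hxvc L κ K τ l ⟨hOK, hl, hcat⟩ M N f hM hN
  have hZ := hfrz L κ K τ l ⟨hOK, hl, hcat⟩ M N f
  -- elements with a tag are not in `Sv`, `Xv`
  have hi_not : ∀ (t : T) (a : τ.A), W.hi t a ∉ Sv L κ (W τ T) := by
    intro t a h
    exact absurd ((g1 _).1 h).1 (by simp [W.hi, W.tag])
  have φhi_not : ∀ (t : T) (a : τ.A), φ (W.hi t a) ∉ Sv L κ M.α := by
    intro t a h
    rw [← aφ.2.1] at h
    obtain ⟨z, hz, hz'⟩ := h
    exact hi_not t a (φ.injective hz' ▸ hz)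
  have fφhi_X : ∀ (t : T) (a : τ.A), f (φ (W.hi t a)) ∉ Xv L κ N.α := by
    intro t a h
    rw [hX] at h
    obtain ⟨z, hz, hz'⟩ := h
    have h1 : z = φ (W.hi t a) := f.injective hz'
    rw [h1, ← aφ.2.2.1] at hz
    obtain ⟨z', hz1, hz2⟩ := hz
    have h2 := x1 z' hz1
    rw [φ.injective hz2] at h2
    exact absurd h2 (by simp [W.hi, W.tag])
  -- elements outside of `Xv N`
  have mv : ∀ x : N.α, x ∉ Xv L κ N.α → ∃ (e : W τ T ≃[L] W τ T) (t : T),
      (∀ z ∈ Sv L κ (W τ T), e z = z) ∧ (e (ψ.symm x)).tag = some t := by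
    intro x hx
    have h1 : ψ.symm x ∉ Xv L κ (W τ T) := by
      intro h
      apply hx
      rw [← aψ.2.2.1]
      exact ⟨_, h, ψ.apply_symm_apply x⟩
    obtain ⟨e, he, hne⟩ := x3 _ h1
    obtain ⟨t, ht⟩ := Option.ne_none_iff_exists'.1 hne
    exact ⟨e, t, he, ht⟩
  have hyX : y ∉ Xv L κ N.α := by
    intro h
    rw [hX] at h
    obtain ⟨z, _, hz⟩ := h
    exact hy ⟨z, hz⟩
  obtain ⟨e₁, t₁, he₁, hty⟩ := mv y hyX
  have hTne : Nonempty T := by
    rw [← Cardinal.mk_ne_zero_iff, hTl]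
    intro h0
    rw [h0] at hκl
    exact absurd hκl (not_lt.2 (Cardinal.zero_le κ))
  obtain ⟨t⟩ := hTne
  obtain ⟨a₀, ha₀⟩ := τ.ne
  obtain ⟨e₂, t₂, he₂, htx⟩ := mv (f (φ (W.hi t ⟨a₀, ha₀⟩))) (fφhi_X t ⟨a₀, ha₀⟩)
  -- the automorphism
  let σ : W τ T ≃[L] W τ T := W.eqv (Equiv.swap t₂ t₁)
  let e : N.α ≃[L] N.α := ψ.comp (e₁.symm.comp (σ.comp (e₂.comp ψ.symm)))
  have he : ∀ x, e x = ψ (e₁.symm (σ (e₂ (ψ.symm x)))) := fun x => rfl
  have he₁' : ∀ z ∈ Sv L κ (W τ T), e₁.symm z = z := by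
    intro z hz
    have h1 := congrArg e₁.symm (he₁ z hz)
    rw [e₁.symm_apply_apply] at h1
    exact h1.symm
  have hσ : ∀ z ∈ Sv L κ (W τ T), σ z = z := by
    intro z hz
    obtain ⟨s, rfl, _⟩ := tag_none ((g1 z).1 hz).1
    rfl
  have hψS : ∀ z ∈ Sv L κ N.α, ψ.symm z ∈ Sv L κ (W τ T) := by
    intro z hz
    rw [← aψ.2.1] at hz
    obtain ⟨z', hz', rfl⟩ := hz
    rwa [ψ.symm_apply_apply]
  have hfix : ∀ z ∈ Sv L κ N.α, e z = z := by
    intro z hz
    have h1 := hψS z hz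
    rw [he, he₂ _ h1, hσ _ h1, he₁' _ h1, ψ.apply_symm_apply]
  have ae := haut L κ N.α N.α e
  have aE1 := haut L κ (W τ T) (W τ T) e₁.symm
  have hSe : e '' Sv L κ N.α = Sv L κ N.α := ae.2.1
  -- components of elements of copies
  have hc0 : ∀ a : τ.A, cmp L (Sv L κ N.α) (f (φ (W.hi t a))) =
      (fun z => f (φ z)) '' {x | x.tag = some t} := by
    intro a
    rw [hZ (φ (W.hi t a)) hM hN (φhi_not t a), ← aφ.2.1, ← aφ.2.2.2.1, g2 t a,
      Set.image_image]
  have hc1 : ∀ a : τ.A, cmp L (Sv L κ N.α) (e (f (φ (W.hi t a)))) =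
      (fun z => e (f (φ z))) '' {x | x.tag = some t} := by
    intro a
    have h1 := ae.2.2.2.1 (Sv L κ N.α) (f (φ (W.hi t a)))
    rw [hSe, hc0 a, Set.image_image] at h1
    exact h1.symm
  -- the component of `y`
  have hcy : cmp L (Sv L κ N.α) y = (fun z => e (f (φ z))) '' {x | x.tag = some t} := by
    rw [← hc1 ⟨a₀, ha₀⟩]
    have h2 : ∀ z : W τ T, z.tag = some t₁ →
        cmp L (Sv L κ N.α) (ψ (e₁.symm z)) =
          ψ '' (e₁.symm '' {x | x.tag = some t₁}) := by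
      intro z hz
      obtain ⟨a, rfl⟩ := tag_some hz
      rw [← g2 t₁ a, aE1.2.2.2.1, aE1.2.1, aψ.2.2.2.1, aψ.2.1]
    have h3 := h2 _ hty
    rw [e₁.symm_apply_apply, ψ.apply_symm_apply] at h3
    rw [h3, he]
    symm
    apply h2
    obtain ⟨a, ha⟩ := tag_some htx
    rw [ha]
    change Option.some (Equiv.swap t₂ t₁ t₂) = some t₁
    rw [Equiv.swap_apply_left]
  -- the map
  refine ⟨fun a => e (f (φ (W.hi t a))), ?_, ?_, ?_, ?_, ?_⟩
  · intro a a' h
    have h1 := φ.injective (f.injective (e.injective h))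
    have h2 : (t, a) = (t, a') := Sum.inr_injective h1
    exact (Prod.mk.inj h2).2
  · have h1 : y ∈ cmp L (Sv L κ N.α) y := Relation.ReflTransGen.refl
    rw [hcy] at h1
    obtain ⟨z, hz, hz'⟩ := h1
    obtain ⟨a, rfl⟩ := tag_some hz
    exact ⟨a, hz'⟩
  · rintro a ⟨w, hw⟩
    have hw1 : f w = e (f (φ (W.hi t a))) := hw
    have hwS : w ∉ Sv L κ M.α := by
      intro h
      have h1 : f w ∈ Sv L κ N.α := by
        rw [hS]
        exact ⟨w, h, rfl⟩
      have h2 : e (f w) = e (f (φ (W.hi t a))) := by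
        rw [hfix _ h1, hw1]
      have h3 : w = φ (W.hi t a) := f.injective (e.injective h2)
      exact φhi_not t a (h3 ▸ h)
    have h4 := hZ w hM hN hwS
    have h5 : y ∈ cmp L (Sv L κ N.α) (f w) := by
      rw [hw1, hc1 a, ← hcy]
      exact Relation.ReflTransGen.refl
    rw [h4] at h5
    obtain ⟨z, _, hz⟩ := h5
    exact hy ⟨z, hz⟩
  · rintro n R v hv ⟨i, a, hi⟩ j
    by_cases hj : ∃ a, v j = e (f (φ (W.hi t a)))
    · exact Or.inl hj
    · by_cases hjS : v j ∈ Sv L κ N.α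
      · right
        rw [hS, ← aφ.2.1] at hjS
        obtain ⟨_, ⟨z, hz, rfl⟩, hz'⟩ := hjS
        obtain ⟨hz1, hz2⟩ := (g1 z).1 hz
        obtain ⟨s, rfl, hs⟩ := tag_none hz1
        refine ⟨s, ?_, hz'.symm⟩
        rw [hs] at hz2
        exact hz2
      · left
        have hne : v i ≠ v j := by
          intro h
          exact hj ⟨a, h ▸ hi⟩
        have h1 : v j ∈ cmp L (Sv L κ N.α) (v i) :=
          Relation.ReflTransGen.single ⟨⟨hne, n, R, v, hv, ⟨i, rfl⟩, ⟨j, rfl⟩⟩, hjS⟩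
        rw [hi, hc1 a] at h1
        obtain ⟨z, hz, hz'⟩ := h1
        obtain ⟨a', rfl⟩ := tag_some hz
        exact ⟨a', hz'.symm⟩
  · intro n R v w hw
    classical
    let v' : Fin n → W τ T := fun i => if h : v i ∈ τ.A then W.hi t ⟨v i, h⟩ else W.lo ⟨v i, h⟩
    have hw' : w = fun i => e (f (φ (v' i))) := by
      funext i
      rcases hw i with ⟨h, h1⟩ | ⟨h, hB, h1⟩
      · rw [h1]
        simp only [v', dif_pos h]
      · have h2 : W.lo ⟨v i, h⟩ ∈ Sv L κ (W τ T) := (g1 _).2 ⟨rfl, hB⟩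
        have h3 : f (φ (W.lo ⟨v i, h⟩)) ∈ Sv L κ N.α := by
          rw [hS, ← aφ.2.1]
          exact ⟨_, ⟨_, h2, rfl⟩, rfl⟩
        have h4 : v' i = W.lo ⟨v i, h⟩ := by simp only [v', dif_neg h]
        change w i = e (f (φ (v' i)))
        rw [h4, hfix _ h3]
        exact h1
    have h1 : Structure.RelMap R w ↔ Structure.RelMap R v' := by
      rw [hw']
      have r1 := e.map_rel R (fun i => f (φ (v' i)))
      have r2 := f.toEmb.map_rel R (fun i => φ (v' i))
      have r3 := φ.map_rel R v'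
      exact r1.trans (r2.trans r3)
    rw [h1]
    have hpr : (fun i => (v' i).pr) = v := by
      funext i
      by_cases h : v i ∈ τ.A
      · simp only [v', dif_pos h]
        rfl
      · simp only [v', dif_neg h]
        rfl
    have htag : ∀ i s, (v' i).tag = some s → s = t := by
      intro i s hs
      by_cases h : v i ∈ τ.A
      · simp only [v', dif_pos h] at hs
        exact (Option.some.inj hs).symm
      · simp only [v', dif_neg h] at hs
        exact absurd hs (by simp [W.lo, W.tag])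
    constructor
    · intro h
      refine ⟨fun i j s s' hs hs' => (htag i s hs).trans (htag j s' hs').symm, ?_⟩
      rw [hpr]
      exact h
    · intro h
      have h2 : Structure.RelMap R (fun i => (v' i).pr) := h.2
      rw [hpr] at h2
      exact h2

end Pool.Agent.AEC.S.H24
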